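import Mathlib
import Pool.Agent.Y187.WQ.Stm
import Pool.Agent.H215R2.BP.GNtr

/-!
# Project WQ, piece EXNT: a nearly tracial corner from a finite projection
-/

set_option autoImplicit false

open scoped ComplexOrder InnerProductSpace
open Finset Filter

noncomputable section

namespace Pool.Agent.Y246.WQ

open H759R2.Kad Pool.Agent.Y187.WQ H68R2.BP H68R2.BP.G_ntraux

theorem t_exnt : W_exnt := by
  intro H _ _ _ N s hs hs0 hsF
  have hW := c_wst H N
  have hx : ∃ x : H, (s : H →L[ℂ] H) x ≠ 0 := by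
    by_contra hcon
    push Not at hcon
    apply hs0
    apply Subtype.ext
    ext x
    rw [hcon x]
    rfl
  obtain ⟨ξ, hξ⟩ := hx
  set φ := H228sep.vec N ξ with hφ
  have hφs : φ s ≠ 0 := by
    have h1 : φ s = ((‖(s : H →L[ℂ] H) ξ‖ ^ 2 : ℝ) : ℂ) := by
      have h2 := vec_ss N ξ s
      rw [hs.1, hs.2] at h2
      exact h2
    rw [h1]
    exact_mod_cast pow_ne_zero 2 (norm_ne_zero_iff.2 hξ)
  obtain ⟨s', hs', hss', hs'0, hsf⟩ := w_faith _ hW φ (vec_nrm N ξ) s hs hφs
  have hsF' : Fnt s' := prove6_sub _ s s' hs hs' hss' hsF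
  obtain ⟨p, hp, hsp, hp0, hpn⟩ := w_near _ hW φ (vec_nrm N ξ) s' hs' hs'0 hsF' hsf 1 one_pos
  have hpall := w_all _ hW φ (vec_nrm N ξ) p hp 1 zero_le_one hpn
  refine ⟨p, p.2, ⟨congrArg Subtype.val hp.1, congrArg Subtype.val hp.2⟩,
    fun h => hp0 (Subtype.ext h), ξ, ?_, ?_⟩
  · intro x hx hpx
    set x' : N.toStarSubalgebra := ⟨x, hx⟩ with hx'
    have hpp : (p : H →L[ℂ] H) * p = p := congrArg Subtype.val hp.2
    have h1 : p * x' = x' := by
      apply Subtype.ext
      change (p : H →L[ℂ] H) * x = x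
      rw [← hpx, ← mul_assoc, ← mul_assoc, hpp]
    have h2 : x' * p = x' := by
      apply Subtype.ext
      change x * (p : H →L[ℂ] H) = x
      rw [← hpx, mul_assoc, hpp]
    have h3 := hpall x' h1 h2
    have e1 : (φ (x' * star x')).re = ‖star x ξ‖ ^ 2 := by
      rw [hφ, vec_ss' N ξ x', Complex.ofReal_re]
    have e2 : (φ (star x' * x')).re = ‖x ξ‖ ^ 2 := by
      rw [hφ, vec_ss N ξ x', Complex.ofReal_re]
    rw [e1, e2] at h3
    simp only [Finset.univ_unique, Finset.sum_const, Finset.card_singleton, one_smul]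
    linarith
  · intro x hx hxp h0
    have h := sep_of N ξ s' p hp hsp hsf ⟨x, hx⟩ (Subtype.ext hxp) (h0 0)
    exact congrArg Subtype.val h

end Pool.Agent.Y246.WQ
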